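import Mathlib

/-!
Sum hypergraphs and the forbidden hypergraph `K_{r+1}^r`.
-/

namespace Q123.SH

open Finset

/-- The edges: all `r`-sets of vertices whose labels add up to an element of `S`. -/
def edges {V G : Type*} [Fintype V] [DecidableEq V] [AddCommGroup G] [DecidableEq G]
    (l : V → G) (S : Finset G) (r : ℕ) : Finset (Finset V) :=
  (powersetCard r (univ : Finset V)).filter (fun e => ∑ v ∈ e, l v ∈ S)

/-- No `r + 1` vertices have all their `r`-subsets in `H`. -/
def CliqueFree {V : Type*} (H : Finset (Finset V)) (r : ℕ) : Prop :=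
  ∀ T : Finset V, T.card = r + 1 → ∃ e ∈ powersetCard r T, e ∉ H

/-- an inverse of `-d` modulo `o` -/
lemma exists_mul_add_one {d o : ℕ} (ho : 0 < o) (h : Nat.Coprime d o) :
    ∃ k < o, o ∣ k * d + 1 := by
  have : NeZero o := ⟨ho.ne'⟩
  refine ⟨(-(d : ZMod o)⁻¹).val, ZMod.val_lt _, ?_⟩
  rw [← ZMod.natCast_eq_zero_iff]
  push_cast
  rw [ZMod.natCast_val, ZMod.cast_id', id]
  have := ZMod.coe_mul_inv_eq_one d h
  rw [neg_mul, mul_comm, this]
  ring

/-- translates of a set without solutions of `k t + (r - k) t' + t₁ = 0` are disjoint -/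
lemma translates {Q : Type*} [AddCommGroup Q] [Fintype Q] [DecidableEq Q] (r p : ℕ)
    (hr : 0 < r) (hexp : ∀ q : Q, r • q = 0)
    (hp : ∀ q : ℕ, q.Prime → q ∣ r → q ∣ Fintype.card Q → p ≤ q) (T : Finset Q)
    (hT : ∀ t ∈ T, ∀ t' ∈ T, ∀ t₁ ∈ T, ∀ k ≤ r, k • t + (r - k) • t' + t₁ ≠ 0) :
    p * T.card ≤ Fintype.card Q := by
  rcases T.eq_empty_or_nonempty with rfl | ⟨t₁, ht₁⟩
  · simp
  set o := addOrderOf t₁ with ho
  have hor : o ∣ r := addOrderOf_dvd_of_nsmul_eq_zero (hexp t₁)
  have hoQ : o ∣ Fintype.card Q := addOrderOf_dvd_card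
  have ho0 : 0 < o := Nat.pos_of_dvd_of_pos hor hr
  have hle : o ≤ r := Nat.le_of_dvd hr hor
  have key : ∀ t ∈ T, ∀ t' ∈ T, ∀ j j' : ℕ, j < j' → j' < p → t + j • t₁ ≠ t' + j' • t₁ := by
    intro t ht t' ht' j j' hj hj' he
    have hd : Nat.Coprime (j' - j) o := by
      by_contra hcon
      obtain ⟨q, hq, hq1, hq2⟩ := Nat.Prime.not_coprime_iff_dvd.mp hcon
      have h1 := hp q hq (hq2.trans hor) (hq2.trans hoQ)
      have h2 := Nat.le_of_dvd (by omega) hq1
      omega
    obtain ⟨k, hk, hko⟩ := exists_mul_add_one ho0 hd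
    apply hT t ht t' ht' t₁ ht₁ k (by omega)
    have h3 : t = t' + (j' - j) • t₁ := by
      have h4 : j' = (j' - j) + j := by omega
      have h5 : t + j • t₁ = t' + (j' - j) • t₁ + j • t₁ := by
        rw [he, add_assoc, ← add_nsmul, ← h4]
      exact add_right_cancel h5
    have h6 : k • t' + (r - k) • t' = 0 := by
      rw [← add_nsmul, show k + (r - k) = r by omega, hexp]
    have h7 : (k * (j' - j) + 1) • t₁ = 0 := addOrderOf_dvd_iff_nsmul_eq_zero.mp hko
    rw [h3, nsmul_add, ← mul_nsmul']
    calc k • t' + (k * (j' - j)) • t₁ + (r - k) • t' + t₁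
        = (k • t' + (r - k) • t') + ((k * (j' - j)) • t₁ + 1 • t₁) := by
          rw [one_nsmul]; abel
      _ = 0 := by rw [h6, ← add_nsmul, h7, add_zero]
  have hinj : Set.InjOn (fun x : Q × ℕ => x.1 + x.2 • t₁) (T ×ˢ range p : Finset (Q × ℕ)) := by
    rintro ⟨t, j⟩ h1 ⟨t', j'⟩ h2 h3
    simp only [coe_product, Set.mem_prod, mem_coe, mem_range] at h1 h2
    simp only at h3
    rcases lt_trichotomy j j' with h | h | h
    · exact absurd h3 (key t h1.1 t' h2.1 j j' h h2.2)
    · subst h
      rw [add_right_cancel h3]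
    · exact absurd h3.symm (key t' h2.1 t h1.1 j' j h h1.2)
  have := card_le_card_of_injOn (fun x : Q × ℕ => x.1 + x.2 • t₁)
    (s := (T ×ˢ range p : Finset (Q × ℕ))) (t := (univ : Finset Q)) (fun _ _ => mem_univ _) hinj
  rw [card_product, card_range, card_univ] at this
  linarith [mul_comm p T.card]

/-- three successive choices -/
lemma choose_three {V : Type*} [DecidableEq V] (A B C : Finset V) (r k : ℕ) (hk : k ≤ r)
    (hA : 1 ≤ A.card) (hB : r + 1 ≤ B.card) (hC : r + 1 ≤ C.card) :
    ∃ a ∈ A, ∃ X ⊆ B, ∃ Y ⊆ C, X.card = k ∧ Y.card = r - k ∧ a ∉ X ∧ a ∉ Y ∧ Disjoint X Y := by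
  obtain ⟨a, ha⟩ := card_pos.mp hA
  have h1 : k ≤ (B \ {a}).card := by
    have := le_card_sdiff ({a} : Finset V) B
    rw [card_singleton] at this; omega
  obtain ⟨X, hX, hXc⟩ := exists_subset_card_eq h1
  have h2 : r - k ≤ (C \ (insert a X)).card := by
    have := le_card_sdiff (insert a X) C
    have h3 := card_insert_le a X
    omega
  obtain ⟨Y, hY, hYc⟩ := exists_subset_card_eq h2
  refine ⟨a, ha, X, hX.trans sdiff_subset, Y, hY.trans sdiff_subset, hXc, hYc, ?_, ?_, ?_⟩
  · intro h; have := hX h; simp at this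
  · intro h; have := hY h; simp at this
  · rw [disjoint_left]
    intro v hv hv'
    have := hY hv'
    simp only [mem_sdiff, mem_insert, not_or] at this
    exact this.2.2 hv

lemma exists_functional_aux (p : ℕ) [hp : Fact p.Prime] (Q : Type*) [AddCommGroup Q]
    [Module (ZMod p) Q] {x : Q} (hx : x ≠ 0) : ∃ f : Q →+ ZMod p, f x ≠ 0 := by
  obtain ⟨f, hf⟩ := Module.Projective.exists_dual_ne_zero (ZMod p) (V := Q) hx
  exact ⟨f.toAddMonoidHom, hf⟩

/-- a functional that does not vanish at a given nonzero element -/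
lemma exists_functional (p : ℕ) [hp : Fact p.Prime] (Q : Type*) [AddCommGroup Q]
    (hQ : ∀ q : Q, p • q = 0) {x : Q} (hx : x ≠ 0) : ∃ f : Q →+ ZMod p, f x ≠ 0 := by
  have inst : Module (ZMod p) Q := AddCommGroup.zmodModule hQ
  exact exists_functional_aux p Q hx

section group

variable {G : Type*} [AddCommGroup G] [Fintype G] [DecidableEq G]

/-- reflection -/
lemma sum_not_mem (r m : ℕ) (S : Finset G)
    (hfree : CliqueFree (edges (V := G × Fin m) Prod.fst S r) r)
    (W : Finset (G × Fin m)) (hW : W.card = r + 1) (hS : ∀ w ∈ W, w.1 ∈ S) :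
    ∑ w ∈ W, w.1 ∉ (nsmulAddMonoidHom (α := G) r).range := by
  rintro ⟨u, hu⟩
  have hu' : r • u = ∑ w ∈ W, w.1 := hu
  let f : G × Fin m → G × Fin m := fun w => (u - w.1, w.2)
  have hf : Function.Injective f := by
    rintro ⟨a, i⟩ ⟨b, j⟩ h
    simp only [f, Prod.mk.injEq, sub_right_inj] at h
    exact Prod.ext h.1 h.2
  obtain ⟨e, he, he'⟩ := hfree (W.image f) (by rw [card_image_of_injective _ hf, hW])
  apply he'
  rw [mem_powersetCard] at he
  unfold edges
  rw [mem_filter, mem_powersetCard]
  refine ⟨⟨subset_univ _, he.2⟩, ?_⟩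
  have hsum : ∑ v ∈ W.image f, v.1 = u := by
    rw [sum_image (fun _ _ _ _ h => hf h)]
    simp only [f]
    rw [sum_sub_distrib, sum_const, hW, ← hu', add_nsmul, one_nsmul]
    abel
  have hdiff : ((W.image f) \ e).card = 1 := by
    rw [card_sdiff_of_subset he.1, card_image_of_injective _ hf, hW, he.2]; omega
  obtain ⟨v, hv⟩ := card_eq_one.mp hdiff
  have h1 : v ∈ W.image f := by
    have : v ∈ (W.image f) \ e := by rw [hv]; simp
    exact (mem_sdiff.mp this).1
  obtain ⟨w, hw, rfl⟩ := mem_image.mp h1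
  have h2 := sum_sdiff (f := fun v : G × Fin m => v.1) he.1
  rw [hv, sum_singleton, hsum] at h2
  have h3 : ∑ v ∈ e, v.1 = w.1 := by
    have h4 : (f w).1 = u - w.1 := rfl
    rw [h4] at h2
    have h5 : ∑ v ∈ e, v.1 = u - (u - w.1) := by
      rw [eq_sub_iff_add_eq, add_comm]; exact h2
    rw [h5]; abel
  rw [h3]
  exact hS w hw

open Classical in
/-- the elements of `S × Fin m` in a given class -/
noncomputable def cls (r m : ℕ) (S : Finset G) (c : G ⧸ (nsmulAddMonoidHom (α := G) r).range) :
    Finset (G × Fin m) :=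
  (univ : Finset (G × Fin m)).filter (fun v => v.1 ∈ S ∧
    (QuotientAddGroup.mk v.1 : G ⧸ (nsmulAddMonoidHom (α := G) r).range) = c)

lemma mem_cls {r m : ℕ} {S : Finset G} {c : G ⧸ (nsmulAddMonoidHom (α := G) r).range}
    {v : G × Fin m} : v ∈ cls r m S c ↔
      v.1 ∈ S ∧ (QuotientAddGroup.mk v.1 : G ⧸ (nsmulAddMonoidHom (α := G) r).range) = c := by
  unfold cls; simp

lemma rich_classes (r m p : ℕ) (hr : 0 < r)
    (hp : ∀ q : ℕ, q.Prime → q ∣ r → q ∣ Fintype.card G → p ≤ q) (S : Finset G)
    (hfree : CliqueFree (edges (V := G × Fin m) Prod.fst S r) r)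
    (T : Finset (G ⧸ (nsmulAddMonoidHom (α := G) r).range))
    (hT : ∀ c ∈ T, r + 1 ≤ (cls r m S c).card) :
    p * T.card ≤ Nat.card (G ⧸ (nsmulAddMonoidHom (α := G) r).range) := by
  classical
  have : Fintype (G ⧸ (nsmulAddMonoidHom (α := G) r).range) := Fintype.ofFinite _
  rw [Nat.card_eq_fintype_card]
  refine translates r p hr ?_ ?_ T ?_
  · intro q
    obtain ⟨g, rfl⟩ := QuotientAddGroup.mk_surjective q
    rw [← QuotientAddGroup.mk_nsmul, QuotientAddGroup.eq_zero_iff]
    exact ⟨g, rfl⟩
  · intro q hq h1 h2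
    refine hp q hq h1 (h2.trans ?_)
    rw [← Nat.card_eq_fintype_card, ← Nat.card_eq_fintype_card]
    exact AddSubgroup.card_quotient_dvd_card _
  · intro t ht t' ht' t₁ ht₁ k hk h0
    obtain ⟨a, ha, X, hX, Y, hY, hXc, hYc, haX, haY, hXY⟩ :=
      choose_three (cls r m S t₁) (cls r m S t) (cls r m S t') r k hk
        (by have := hT t₁ ht₁; omega) (hT t ht) (hT t' ht')
    have haXY : a ∉ X ∪ Y := by rw [mem_union]; tauto
    refine sum_not_mem r m S hfree (insert a (X ∪ Y)) ?_ ?_ ?_
    · rw [card_insert_of_notMem haXY, card_union_of_disjoint hXY, hXc, hYc]; omega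
    · intro w hw
      rcases mem_insert.mp hw with rfl | hw
      · exact (mem_cls.mp ha).1
      · rcases mem_union.mp hw with hw | hw
        · exact (mem_cls.mp (hX hw)).1
        · exact (mem_cls.mp (hY hw)).1
    · rw [← QuotientAddGroup.eq_zero_iff, sum_insert haXY, sum_union hXY]
      have e1 : (QuotientAddGroup.mk (∑ w ∈ X, w.1) :
          G ⧸ (nsmulAddMonoidHom (α := G) r).range) = k • t := by
        rw [QuotientAddGroup.mk_sum, sum_congr rfl (fun w hw => (mem_cls.mp (hX hw)).2), sum_const,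
          hXc]
      have e2 : (QuotientAddGroup.mk (∑ w ∈ Y, w.1) :
          G ⧸ (nsmulAddMonoidHom (α := G) r).range) = (r - k) • t' := by
        rw [QuotientAddGroup.mk_sum, sum_congr rfl (fun w hw => (mem_cls.mp (hY hw)).2), sum_const,
          hYc]
      rw [QuotientAddGroup.mk_add, QuotientAddGroup.mk_add, e1, e2, (mem_cls.mp ha).2, ← h0]
      abel

/-- the bound on `S` -/
lemma card_mul_le (r m p : ℕ) (hr : 0 < r)
    (hp : ∀ q : ℕ, q.Prime → q ∣ r → q ∣ Fintype.card G → p ≤ q) (S : Finset G)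
    (hfree : CliqueFree (edges (V := G × Fin m) Prod.fst S r) r) :
    p * (m * S.card) ≤ m * Fintype.card G
      + p * (r * Nat.card (G ⧸ (nsmulAddMonoidHom (α := G) r).range)) := by
  classical
  set R := (nsmulAddMonoidHom (α := G) r).range with hR
  have : Fintype (G ⧸ R) := Fintype.ofFinite _
  set T := (univ : Finset (G ⧸ R)).filter (fun c => r + 1 ≤ (cls r m S c).card) with hTdef
  have h1 := rich_classes r m p hr hp S hfree T (by intro c hc; exact (mem_filter.mp hc).2)
  have hcls : ∀ c : G ⧸ R, (cls r m S c).card ≤ m * Nat.card R := by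
    intro c
    obtain ⟨g, rfl⟩ := QuotientAddGroup.mk_surjective c
    have : Fintype R := Fintype.ofFinite _
    have hle : (cls r m S (QuotientAddGroup.mk g)).card ≤
        ((univ : Finset (R × Fin m))).card := by
      refine card_le_card_of_surjOn (fun x : R × Fin m => ((g + x.1 : G), x.2)) ?_
      intro v hv
      rw [mem_coe, mem_cls] at hv
      have h2 : -g + v.1 ∈ R := by
        have := hv.2
        rw [eq_comm, QuotientAddGroup.eq] at this
        exact this
      exact ⟨(⟨-g + v.1, h2⟩, v.2), by simp, by simp⟩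
    rw [card_univ, Fintype.card_prod, Fintype.card_fin, ← Nat.card_eq_fintype_card] at hle
    linarith [mul_comm m (Nat.card R)]
  have hsum : m * S.card ≤ ∑ c : G ⧸ R, (cls r m S c).card := by
    have h2 : (S ×ˢ (univ : Finset (Fin m))).card = m * S.card := by
      rw [card_product, card_univ, Fintype.card_fin, mul_comm]
    rw [← h2, card_eq_sum_card_fiberwise (f := fun v : G × Fin m =>
      (QuotientAddGroup.mk v.1 : G ⧸ R)) (t := univ) (fun _ _ => mem_univ _)]
    refine sum_le_sum (fun c _ => card_le_card ?_)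
    intro v hv
    rw [mem_filter, mem_product] at hv
    exact mem_cls.mpr ⟨hv.1.1, hv.2⟩
  have hbound : ∑ c : G ⧸ R, (cls r m S c).card ≤ T.card * (m * Nat.card R)
      + Fintype.card (G ⧸ R) * r := by
    calc ∑ c : G ⧸ R, (cls r m S c).card
        ≤ ∑ c : G ⧸ R, ((if c ∈ T then m * Nat.card R else 0) + r) := by
          refine sum_le_sum (fun c _ => ?_)
          by_cases hc : c ∈ T
          · rw [if_pos hc]; have := hcls c; omega
          · rw [if_neg hc]
            have : ¬ (r + 1 ≤ (cls r m S c).card) := fun h => hc (mem_filter.mpr ⟨mem_univ _, h⟩)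
            omega
      _ = T.card * (m * Nat.card R) + Fintype.card (G ⧸ R) * r := by
          rw [sum_add_distrib, sum_const, card_univ, sum_ite_mem, univ_inter, sum_const,
            smul_eq_mul, smul_eq_mul]
  have hlag : Nat.card (G ⧸ R) * Nat.card R = Fintype.card G := by
    rw [← Nat.card_eq_fintype_card (α := G)]
    exact (AddSubgroup.card_eq_card_quotient_mul_card_addSubgroup R).symm
  have hq : Nat.card (G ⧸ R) = Fintype.card (G ⧸ R) := Nat.card_eq_fintype_card
  calc p * (m * S.card) ≤ p * (T.card * (m * Nat.card R) + Fintype.card (G ⧸ R) * r) :=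
        Nat.mul_le_mul_left p (hsum.trans hbound)
    _ = (p * T.card) * (m * Nat.card R) + p * (r * Nat.card (G ⧸ R)) := by rw [hq]; ring
    _ ≤ Nat.card (G ⧸ R) * (m * Nat.card R) + p * (r * Nat.card (G ⧸ R)) := by gcongr
    _ = m * Fintype.card G + p * (r * Nat.card (G ⧸ R)) := by rw [← hlag]; ring

/-- the bound on `S` when every label is used at least `r + 1` times -/
lemma card_mul_le' (r m p : ℕ) (hr : 0 < r) (hm : r + 1 ≤ m)
    (hp : ∀ q : ℕ, q.Prime → q ∣ r → q ∣ Fintype.card G → p ≤ q) (S : Finset G)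
    (hfree : CliqueFree (edges (V := G × Fin m) Prod.fst S r) r) :
    p * S.card ≤ Fintype.card G := by
  classical
  set R := (nsmulAddMonoidHom (α := G) r).range with hR
  have : Fintype (G ⧸ R) := Fintype.ofFinite _
  have : Fintype R := Fintype.ofFinite _
  set T := S.image (fun g => (QuotientAddGroup.mk g : G ⧸ R)) with hTdef
  have h1 := rich_classes r m p hr hp S hfree T (by
    intro c hc
    obtain ⟨g, hg, rfl⟩ := mem_image.mp hc
    have h2 : ((univ : Finset (Fin m)).image (fun i => (g, i))).card = m := by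
      rw [card_image_of_injective _ (fun i j h => (Prod.mk.inj h).2), card_univ, Fintype.card_fin]
    have h3 : (univ : Finset (Fin m)).image (fun i => (g, i)) ⊆
        cls r m S (QuotientAddGroup.mk g) := by
      intro v hv
      obtain ⟨i, _, rfl⟩ := mem_image.mp hv
      exact mem_cls.mpr ⟨hg, rfl⟩
    have h4 := card_le_card h3
    rw [h2] at h4
    exact hm.trans h4)
  have hS : S.card ≤ T.card * Nat.card R := by
    rw [mul_comm]
    refine card_le_mul_card_image S (Nat.card R) ?_
    intro c hc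
    obtain ⟨g, rfl⟩ := QuotientAddGroup.mk_surjective c
    have hle : (S.filter (fun a => (QuotientAddGroup.mk a : G ⧸ R) = QuotientAddGroup.mk g)).card ≤
        ((univ : Finset R)).card := by
      refine card_le_card_of_surjOn (fun x : R => (g + x : G)) ?_
      intro v hv
      rw [mem_coe, mem_filter] at hv
      have h2 : -g + v ∈ R := by
        have := hv.2
        rw [eq_comm, QuotientAddGroup.eq] at this
        exact this
      exact ⟨⟨-g + v, h2⟩, by simp, by simp⟩
    rwa [card_univ, ← Nat.card_eq_fintype_card] at hle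
  have hlag : Nat.card (G ⧸ R) * Nat.card R = Fintype.card G := by
    rw [← Nat.card_eq_fintype_card (α := G)]
    exact (AddSubgroup.card_eq_card_quotient_mul_card_addSubgroup R).symm
  calc p * S.card ≤ p * (T.card * Nat.card R) := Nat.mul_le_mul_left p hS
    _ = (p * T.card) * Nat.card R := by ring
    _ ≤ Nat.card (G ⧸ R) * Nat.card R := by gcongr
    _ = Fintype.card G := hlag

/-- a homomorphism onto `ZMod p` -/
lemma exists_hom (p : ℕ) [hp : Fact p.Prime] (hpG : p ∣ Fintype.card G) :
    ∃ φ : G →+ ZMod p, Function.Surjective φ := by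
  classical
  set P := (nsmulAddMonoidHom (α := G) p).range with hP
  have hx : ∃ x : G, x ∉ P := by
    by_contra hcon
    push Not at hcon
    have hsurj : Function.Surjective (nsmulAddMonoidHom (α := G) p) := fun x => hcon x
    have hinj := Finite.injective_iff_surjective.mpr hsurj
    obtain ⟨x, hx⟩ := exists_prime_addOrderOf_dvd_card p hpG
    have h1 : (nsmulAddMonoidHom (α := G) p) x = (nsmulAddMonoidHom (α := G) p) 0 := by
      show p • x = p • (0 : G)
      rw [nsmul_zero, ← hx, addOrderOf_nsmul_eq_zero]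
    have h2 := hinj h1
    rw [h2, addOrderOf_zero] at hx
    exact hp.out.one_lt.ne hx
  obtain ⟨x, hx⟩ := hx
  have hmod : ∀ q : G ⧸ P, p • q = 0 := by
    intro q
    obtain ⟨g, rfl⟩ := QuotientAddGroup.mk_surjective q
    rw [← QuotientAddGroup.mk_nsmul, QuotientAddGroup.eq_zero_iff]
    exact ⟨g, rfl⟩
  have h1 : (QuotientAddGroup.mk x : G ⧸ P) ≠ 0 := by
    rwa [Ne, QuotientAddGroup.eq_zero_iff]
  obtain ⟨f, hf⟩ := exists_functional p (G ⧸ P) hmod h1
  refine ⟨f.comp (QuotientAddGroup.mk' P), ?_⟩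
  intro y
  refine ⟨(y * (f (QuotientAddGroup.mk x))⁻¹).val • x, ?_⟩
  rw [map_nsmul]
  show (y * (f (QuotientAddGroup.mk x))⁻¹).val • f (QuotientAddGroup.mk x) = y
  rw [nsmul_eq_mul, ZMod.natCast_zmod_val, mul_assoc, inv_mul_cancel₀ hf, mul_one]

omit [DecidableEq G] in
/-- the fibre over `1` has the right size -/
lemma card_fibre (p : ℕ) [hp : Fact p.Prime] (φ : G →+ ZMod p) (hφ : Function.Surjective φ) :
    p * ((univ : Finset G).filter (fun g => φ g = 1)).card = Fintype.card G := by
  have h1 : ∀ c : ZMod p, ((univ : Finset G).filter (fun g => φ g = c)).card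
      = ((univ : Finset G).filter (fun g => φ g = 1)).card := by
    intro c
    obtain ⟨a, ha⟩ := hφ (1 - c)
    refine card_bij' (fun g _ => g + a) (fun g _ => g - a) ?_ ?_ ?_ ?_
    · intro g hg; simp only [mem_filter, mem_univ, true_and] at hg ⊢; rw [map_add, hg, ha]; ring
    · intro g hg; simp only [mem_filter, mem_univ, true_and] at hg ⊢; rw [map_sub, hg, ha]; ring
    · intro g _; simp
    · intro g _; simp
  have h2 := card_eq_sum_card_fiberwise (s := (univ : Finset G)) (f := fun g => φ g)
    (t := (univ : Finset (ZMod p))) (fun _ _ => mem_univ _)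
  rw [sum_congr rfl (fun c _ => h1 c), sum_const, card_univ, card_univ, ZMod.card] at h2
  rw [h2, smul_eq_mul]

/-- the fibre over `1` gives a hypergraph without `K_{r+1}^r` -/
lemma free_fibre (r m p : ℕ) [hp : Fact p.Prime] (hpr : p ∣ r) (φ : G →+ ZMod p) :
    CliqueFree (edges (V := G × Fin m) Prod.fst
      ((univ : Finset G).filter (fun g => φ g = 1)) r) r := by
  classical
  intro T hT
  by_contra hcon
  push Not at hcon
  have h1 : ∀ v ∈ T, φ (∑ w ∈ T, w.1) - φ v.1 = 1 := by
    intro v hv
    have h2 := hcon (T.erase v) (by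
      rw [mem_powersetCard]; exact ⟨erase_subset _ _, by rw [card_erase_of_mem hv, hT]; rfl⟩)
    unfold edges at h2
    rw [mem_filter, mem_filter] at h2
    rw [← map_sub, ← add_sum_erase T (fun w => w.1) hv]
    simpa using h2.2.2
  have h2 := sum_congr rfl h1
  rw [sum_sub_distrib, sum_const, sum_const, hT, ← map_sum, add_nsmul, add_nsmul, one_nsmul,
    one_nsmul, add_sub_cancel_right] at h2
  obtain ⟨s, rfl⟩ := hpr
  have h3 : ∀ x : ZMod p, (p * s) • x = 0 := by
    intro x
    rw [nsmul_eq_mul]; push_cast; rw [CharP.cast_eq_zero, zero_mul, zero_mul]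
  rw [h3, h3, zero_add] at h2
  exact zero_ne_one h2

end group

section count

variable {V G : Type*} [Fintype V] [DecidableEq V] [AddCommGroup G] [DecidableEq G]

/-- double counting of pairs (edge, vertex of the edge) -/
lemma count_flags (l : V → G) (S : Finset G) (r : ℕ) :
    (r + 1) * (edges l S (r + 1)).card = ∑ B ∈ powersetCard r (univ : Finset V),
      ((univ : Finset V).filter (fun v => v ∉ B ∧ l v + ∑ w ∈ B, l w ∈ S)).card := by
  classical
  have h1 : (r + 1) * (edges l S (r + 1)).card = ((edges l S (r + 1)).sigma (fun e => e)).card := by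
    rw [card_sigma, sum_congr rfl (g := fun _ => r + 1), sum_const, smul_eq_mul, mul_comm]
    intro e he
    exact (mem_powersetCard.mp (mem_filter.mp he).1).2
  rw [h1, ← card_sigma]
  refine card_bij' (fun x _ => ⟨x.1.erase x.2, x.2⟩) (fun x _ => ⟨insert x.2 x.1, x.2⟩) ?_ ?_ ?_ ?_
  · rintro ⟨e, v⟩ hx
    rw [mem_sigma] at hx
    obtain ⟨he, hv⟩ := hx
    simp only at he hv
    unfold edges at he
    rw [mem_filter, mem_powersetCard] at he
    rw [mem_sigma, mem_powersetCard, mem_filter]
    refine ⟨⟨subset_univ _, ?_⟩, mem_univ _, notMem_erase _ _, ?_⟩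
    · rw [card_erase_of_mem hv, he.1.2]; rfl
    · show l v + ∑ w ∈ e.erase v, l w ∈ S
      rw [add_sum_erase e l hv]; exact he.2
  · rintro ⟨B, v⟩ hx
    rw [mem_sigma, mem_powersetCard, mem_filter] at hx
    obtain ⟨⟨-, hB⟩, -, hv, hs⟩ := hx
    simp only at hB hv hs
    rw [mem_sigma]
    refine ⟨?_, mem_insert_self _ _⟩
    unfold edges
    rw [mem_filter, mem_powersetCard]
    refine ⟨⟨subset_univ _, ?_⟩, ?_⟩
    · show (insert v B).card = r + 1
      rw [card_insert_of_notMem hv, hB]
    · show ∑ w ∈ insert v B, l w ∈ S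
      rw [sum_insert hv]; exact hs
  · rintro ⟨e, v⟩ hx
    rw [mem_sigma] at hx
    simp only [insert_erase hx.2]
  · rintro ⟨B, v⟩ hx
    rw [mem_sigma, mem_filter] at hx
    simp only [erase_insert hx.2.2.1]

end count

section count2

variable {G : Type*} [AddCommGroup G] [Fintype G] [DecidableEq G]

lemma card_shift (m : ℕ) (S : Finset G) (c : G) :
    ((univ : Finset (G × Fin m)).filter (fun v => v.1 + c ∈ S)).card = m * S.card := by
  have : (S ×ˢ (univ : Finset (Fin m))).card = m * S.card := by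
    rw [card_product, card_univ, Fintype.card_fin, mul_comm]
  rw [← this]
  refine card_bij' (fun v _ => (v.1 + c, v.2)) (fun v _ => (v.1 - c, v.2)) ?_ ?_ ?_ ?_
  · intro v hv; simpa using hv
  · intro v hv; simpa using hv
  · intro v _; simp
  · intro v _; simp

lemma edges_le (m r : ℕ) (S : Finset G) :
    (r + 1) * (edges (V := G × Fin m) Prod.fst S (r + 1)).card
      ≤ (m * S.card) * (m * Fintype.card G).choose r := by
  rw [count_flags]
  have h1 : (m * Fintype.card G).choose r = (powersetCard r (univ : Finset (G × Fin m))).card := by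
    rw [card_powersetCard, card_univ, Fintype.card_prod, Fintype.card_fin, mul_comm]
  rw [h1, mul_comm, ← smul_eq_mul, ← sum_const]
  refine sum_le_sum (fun B _ => ?_)
  rw [← card_shift m S (∑ w ∈ B, w.1)]
  exact card_le_card (monotone_filter_right _ (fun v _ hv => hv.2))

lemma le_edges (m r : ℕ) (S : Finset G) :
    (m * S.card - r) * (m * Fintype.card G).choose r ≤
      (r + 1) * (edges (V := G × Fin m) Prod.fst S (r + 1)).card := by
  rw [count_flags]
  have h1 : (m * Fintype.card G).choose r = (powersetCard r (univ : Finset (G × Fin m))).card := by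
    rw [card_powersetCard, card_univ, Fintype.card_prod, Fintype.card_fin, mul_comm]
  rw [h1, mul_comm, ← smul_eq_mul, ← sum_const]
  refine sum_le_sum (fun B hB => ?_)
  have hBr := (mem_powersetCard.mp hB).2
  have h2 := le_card_sdiff B ((univ : Finset (G × Fin m)).filter
    (fun v => v.1 + ∑ w ∈ B, w.1 ∈ S))
  rw [card_shift m S (∑ w ∈ B, w.1), hBr] at h2
  refine h2.trans (card_le_card ?_)
  intro v hv
  simp only [mem_sdiff, mem_filter, mem_univ, true_and] at hv ⊢
  exact ⟨hv.2, hv.1⟩

end count2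

end Q123.SH
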